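import Mathlib

namespace Pool.Agent.Results.MP_eda2d2_co.Counter

open Polynomial

/-- The product `M_t` for `t = (a, b, c, d)`. -/
noncomputable def M (p q r a b c d : ℕ) : ℤ[X] :=
  cyclotomic (p * q * r) ℤ ^ d * cyclotomic (p * q) ℤ ^ a * cyclotomic (p * r) ℤ ^ b *
    cyclotomic (q * r) ℤ ^ c

/-- The polynomial `A_t`. -/
noncomputable def A (p q r a b c d : ℕ) : ℤ[X] :=
  X * (cyclotomic p ℤ * cyclotomic q ℤ) ^ 2 * M p q r a b c d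

/-- The polynomial `B_t`. -/
noncomputable def B (p q r a b c d : ℕ) : ℤ[X] :=
  X * cyclotomic r ℤ ^ 2 * M p q r a b c d

/-- Membership in the set `T` of ten tuples (for entries in `{0,1,2}`). -/
def InT (a b c d : ℕ) : Prop :=
  (a, b, c, d) = (2, 0, 0, 0) ∨ (a, b, c, d) = (2, 1, 0, 1) ∨ (a, b, c, d) = (2, 0, 1, 1) ∨
    (a, b, c, d) = (2, 1, 1, 1) ∨ (a = 2 ∧ d = 2 ∧ 2 ≤ b + c)

/-- Membership in the set `S`. -/
def InS (a b c d : ℕ) : Prop :=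
  a ≤ 2 ∧ b ≤ 2 ∧ c ≤ 2 ∧ d ≤ 2 ∧ 2 + d ≤ a + b + c ∧ a + b + c ≤ 4 + d ∧ ¬ InT a b c d ∧
    (a, b, c, d) ≠ (1, 1, 1, 1)

def NN (f : ℤ[X]) : Prop := ∀ i, 0 ≤ f.coeff i

noncomputable def H : List ℕ → ℤ[X]
  | [] => 0
  | a :: l => (a : ℤ[X]) + X * H l

lemma nn_H (l : List ℕ) : NN (H l) := by
  induction l with
  | nil => intro i; simp [H]
  | cons a l ih =>
    intro i
    rcases i with _ | i
    · simp [H]
    · rw [H, coeff_add, coeff_X_mul, ← C_eq_natCast, coeff_C_succ, zero_add]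
      exact ih i

lemma nn_mul {f g : ℤ[X]} (hf : NN f) (hg : NN g) : NN (f * g) := by
  intro i
  rw [coeff_mul]
  exact Finset.sum_nonneg fun x _ => mul_nonneg (hf _) (hg _)

lemma e14 : cyclotomic 14 ℤ * cyclotomic 2 ℤ = X ^ 7 + 1 := by
  have := cyclotomic_expand_eq_cyclotomic_mul (p := 7) (n := 2) (by norm_num) (by norm_num) ℤ
  rw [show (14 : ℕ) = 2 * 7 from rfl, ← this, cyclotomic_two]
  simp

lemma e6 : cyclotomic 6 ℤ * cyclotomic 3 ℤ = X ^ 4 + X ^ 2 + 1 := by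
  have := cyclotomic_expand_eq_cyclotomic_mul (p := 2) (n := 3) (by norm_num) (by norm_num) ℤ
  rw [show (6 : ℕ) = 3 * 2 from rfl, ← this, cyclotomic_three]
  simp
  ring

lemma e21 : cyclotomic 21 ℤ =
    X ^ 12 - X ^ 11 + X ^ 9 - X ^ 8 + X ^ 6 - X ^ 4 + X ^ 3 - X + 1 := by
  have := cyclotomic_expand_eq_cyclotomic_mul (p := 7) (n := 3) (by norm_num) (by norm_num) ℤ
  apply mul_right_cancel₀ (cyclotomic_ne_zero 3 ℤ)
  rw [show (21 : ℕ) = 3 * 7 from rfl, ← this, cyclotomic_three]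
  simp
  ring

lemma e42 : cyclotomic 42 ℤ * cyclotomic 21 ℤ =
    X ^ 24 - X ^ 22 + X ^ 18 - X ^ 16 + X ^ 12 - X ^ 8 + X ^ 6 - X ^ 2 + 1 := by
  have := cyclotomic_expand_eq_cyclotomic_mul (p := 2) (n := 21) (by norm_num) (by norm_num) ℤ
  rw [show (42 : ℕ) = 21 * 2 from rfl, ← this, e21]
  simp
  ring

lemma e7 : cyclotomic 7 ℤ = X ^ 6 + X ^ 5 + X ^ 4 + X ^ 3 + X ^ 2 + X + 1 := by
  have : Fact (Nat.Prime 7) := ⟨by norm_num⟩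
  rw [cyclotomic_prime]
  simp [Finset.sum_range_succ]
  ring

lemma hA : NN (A 2 3 7 2 2 1 1) := by
  have e : A 2 3 7 2 2 1 1 = X * (cyclotomic 14 ℤ * cyclotomic 2 ℤ) ^ 2 *
      (cyclotomic 6 ℤ * cyclotomic 3 ℤ) ^ 2 * (cyclotomic 42 ℤ * cyclotomic 21 ℤ) := by
    simp only [A, M]
    norm_num
    ring
  have e2 : A 2 3 7 2 2 1 1 = H [0, 1, 0, 0, 0, 0, 0, 0, 2, 0, 0, 0, 0, 0, 0, 1] *
      (H [1, 0, 1, 0, 1] * H [1, 0, 0, 0, 0, 0, 0, 0, 0, 0, 0, 0, 0, 0, 1, 0, 0, 0, 0, 0, 0, 0, 0,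
        0, 0, 0, 0, 0, 1]) := by
    rw [e, e14, e6, e42]
    simp only [H]
    push_cast
    ring
  rw [e2]
  exact nn_mul (nn_H _) (nn_mul (nn_H _) (nn_H _))

lemma hB : NN (B 2 3 7 0 0 1 1) := by
  have e : B 2 3 7 0 0 1 1 = X * cyclotomic 7 ℤ ^ 2 * (cyclotomic 42 ℤ * cyclotomic 21 ℤ) := by
    simp only [B, M]
    norm_num
  have e2 : B 2 3 7 0 0 1 1 = H [0, 1, 2, 2, 2, 2, 2, 3, 2, 0, 0, 0, 0, 1, 0, 0, 2, 2, 2, 3, 2, 2, 2, 0, 0, 1, 0, 0, 0, 0, 2, 3, 2, 2, 2, 2, 2, 1] := by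
    rw [e, e7, e42]
    simp only [H]
    push_cast
    ring
  rw [e2]
  exact nn_H _

theorem result :
    (InS 2 2 1 1 ∧ (∀ i, 0 ≤ (A 2 3 7 2 2 1 1).coeff i) ∧
      ∀ i, 0 ≤ (B 2 3 7 (2 - 2) (2 - 2) (2 - 1) (2 - 1)).coeff i) ∧
    ¬ (∀ p q r : ℕ, p.Prime → q.Prime → r.Prime → p ≠ q → p ≠ r → q ≠ r →
      ∀ a b c d : ℕ, InS a b c d →
        (∃ i, (A p q r a b c d).coeff i < 0) ∨
          ∃ i, (B p q r (2 - a) (2 - b) (2 - c) (2 - d)).coeff i < 0) := by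
  have hS : InS 2 2 1 1 := by simp [InS, InT]
  refine ⟨⟨hS, hA, hB⟩, fun h => ?_⟩
  rcases h 2 3 7 (by norm_num) (by norm_num) (by norm_num) (by norm_num) (by norm_num)
    (by norm_num) 2 2 1 1 hS with ⟨i, hi⟩ | ⟨i, hi⟩
  · exact absurd (hA i) (not_le.mpr hi)
  · exact absurd (hB i) (not_le.mpr hi)

end Pool.Agent.Results.MP_eda2d2_co.Counter
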